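import Mathlib
import Pool.Agent.R982.KaryProb

/-!
# The k-width of a sequence of random intervals

For every `k ≥ 1`, the expected `k`-width of a sequence of `n` independent random intervals divided
by `n` converges to `1/(k+1)`.
-/

namespace Pool.Agent.Results.MP_46e774_pr.KWidthLimit

open MeasureTheory ProbabilityTheory Filter Topology Pool.Agent.R982.Kary

lemma kWidth_le_card {n : ℕ} (lt : Fin n → Fin n → Prop) (k : ℕ) : kWidth lt k ≤ n := by
  refine Nat.sInf_le ⟨fun x => x, fun i => ⟨i, fun x => x, rfl, ?_, ?_, ?_, ?_⟩⟩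
  · intro x hx _; exact hx
  · intro x hx
    have : x = i := hx
    rw [this]
  · intro u _
    have : {v : Fin n | v ∈ {x : Fin n | x = i} ∧ v ≠ i ∧ v = u} = ∅ := by
      ext v
      simp only [Set.mem_ofPred_eq, Set.mem_empty_iff_false, iff_false]
      rintro ⟨h1, h2, _⟩
      exact h2 h1
    rw [this]
    simp
  · intro x _ y _ h
    exfalso
    obtain ⟨z, _, hz⟩ := (Relation.TransGen.tail'_iff).mp h
    exact hz.2.1 hz.1

lemma measurable_left {n : ℕ} (i : Fin n) : Measurable (fun ω : Fin n → ℝ × ℝ => left ω i) := by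
  unfold left
  exact ((measurable_pi_apply i).fst).min ((measurable_pi_apply i).snd)

lemma measurable_right {n : ℕ} (i : Fin n) : Measurable (fun ω : Fin n → ℝ × ℝ => right ω i) := by
  unfold right
  exact ((measurable_pi_apply i).fst).max ((measurable_pi_apply i).snd)

lemma measurable_kWidth (n k : ℕ) :
    Measurable (fun ω : Fin n → ℝ × ℝ => (kWidth (prec ω) k : ℝ)) := by
  have h1 : Measurable (fun ω : Fin n → ℝ × ℝ => prec ω) := by
    refine measurable_pi_lambda _ fun i => measurable_pi_lambda _ fun j => ?_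
    have : MeasurableSet {ω : Fin n → ℝ × ℝ | prec ω i j} := by
      unfold prec
      by_cases h : i < j
      · simp only [h, true_and]
        exact measurableSet_le (measurable_right i) (measurable_left j)
      · simp [h]
    exact measurableSet_setOfPred.mp this
  have h2 : Measurable (fun ρ : Fin n → Fin n → Prop => (kWidth ρ k : ℝ)) := Measurable.of_discrete
  exact h2.comp h1

lemma integrable_kWidth (n k : ℕ) :
    Integrable (fun ω : Fin n → ℝ × ℝ => (kWidth (prec ω) k : ℝ)) (seqLaw n) := by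
  refine Integrable.of_bound (measurable_kWidth n k).aestronglyMeasurable n
    (Filter.Eventually.of_forall fun ω => ?_)
  rw [Real.norm_eq_abs, abs_of_nonneg (Nat.cast_nonneg _)]
  exact_mod_cast kWidth_le_card _ _

lemma ae_mem (n : ℕ) : ∀ᵐ ω ∂(seqLaw n), ∀ i : Fin n, 0 ≤ left ω i ∧ left ω i < 1 := by
  rw [ae_all_iff]
  intro i
  have h1 : ∀ᵐ x ∂pairLaw, 0 ≤ min x.1 x.2 ∧ min x.1 x.2 < 1 := by
    have h2 : ∀ᵐ x ∂pairLaw, x.1 ∈ Set.Ioo (0 : ℝ) 1 := by
      have h3 : ∀ᵐ x ∂unif, x ∈ Set.Ioo (0 : ℝ) 1 := ae_restrict_mem measurableSet_Ioo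
      exact (Measure.quasiMeasurePreserving_fst (μ := unif) (ν := unif)).ae h3
    have h4 : ∀ᵐ x ∂pairLaw, x.2 ∈ Set.Ioo (0 : ℝ) 1 := by
      have h3 : ∀ᵐ x ∂unif, x ∈ Set.Ioo (0 : ℝ) 1 := ae_restrict_mem measurableSet_Ioo
      exact (Measure.quasiMeasurePreserving_snd (μ := unif) (ν := unif)).ae h3
    filter_upwards [h2, h4] with x hx hy
    exact ⟨le_min hx.1.le hy.1.le, min_lt_of_left_lt hx.2⟩
  have h2 := (measurePreserving_eval (fun _ : Fin n => pairLaw) i).quasiMeasurePreserving.ae h1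
  exact h2

/-- Lower bound. -/
lemma lower (n k : ℕ) : (n : ℝ) / (k + 1) ≤ ∫ ω, (kWidth (prec ω) k : ℝ) ∂(seqLaw n) := by
  classical
  set x : ℝ := 1 / (k + 1) with hx
  have hk : (0 : ℝ) < k + 1 := by positivity
  have hx0 : 0 ≤ x := by positivity
  have hx1 : x ≤ 1 := by
    rw [hx, div_le_one hk]
    have : (0 : ℝ) ≤ k := Nat.cast_nonneg _
    linarith
  have hiL : ∀ i : Fin n, Integrable (fun ω : Fin n → ℝ × ℝ => IL x (ω i)) (seqLaw n) := by
    intro i
    refine Integrable.of_bound ((measurable_IL x).comp (measurable_pi_apply i)).aestronglyMeasurable 1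
      (Filter.Eventually.of_forall fun ω => ?_)
    rw [Real.norm_eq_abs, abs_le]
    constructor <;> linarith [IL_mem x (ω i)]
  have hiR : ∀ i : Fin n, Integrable (fun ω : Fin n → ℝ × ℝ => IR x (ω i)) (seqLaw n) := by
    intro i
    refine Integrable.of_bound ((measurable_IR x).comp (measurable_pi_apply i)).aestronglyMeasurable 1
      (Filter.Eventually.of_forall fun ω => ?_)
    rw [Real.norm_eq_abs, abs_le]
    constructor <;> linarith [IR_mem x (ω i)]
  have hpt : ∀ ω : Fin n → ℝ × ℝ,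
      (∑ i : Fin n, IL x (ω i)) - k * (∑ i : Fin n, IR x (ω i)) ≤ (kWidth (prec ω) k : ℝ) := by
    intro ω
    have h1 := card_le_of_kWidth (prec ω) k (Finset.univ.filter (fun j => left ω j ≤ x))
      (Finset.univ.filter (fun j => right ω j ≤ x)) (by
        rintro i j ⟨_, h⟩ hj
        have hj' := (Finset.mem_filter.mp hj).2
        exact Finset.mem_filter.mpr ⟨Finset.mem_univ _, h.trans hj'⟩)
    have h2 : ((Finset.univ.filter (fun j => left ω j ≤ x)).card : ℝ) = ∑ i : Fin n, IL x (ω i) := by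
      rw [Finset.card_filter]
      push_cast
      rfl
    have h3 : ((Finset.univ.filter (fun j => right ω j ≤ x)).card : ℝ) = ∑ i : Fin n, IR x (ω i) := by
      rw [Finset.card_filter]
      push_cast
      rfl
    rw [← h2, ← h3]
    have h4 : ((Finset.univ.filter (fun j => left ω j ≤ x)).card : ℝ)
        ≤ kWidth (prec ω) k + k * (Finset.univ.filter (fun j => right ω j ≤ x)).card := by
      exact_mod_cast h1
    linarith
  have hint := integral_mono ((integrable_finsetSum _ fun i _ => hiL i).sub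
    ((integrable_finsetSum _ fun i _ => hiR i).const_mul (k : ℝ))) (integrable_kWidth n k) hpt
  refine le_trans (le_of_eq ?_) hint
  simp only [Pi.sub_apply]
  rw [integral_sub (integrable_finsetSum _ fun i _ => hiL i)
    ((integrable_finsetSum _ fun i _ => hiR i).const_mul (k : ℝ)), integral_const_mul,
    integral_finsetSum _ (fun i _ => hiL i), integral_finsetSum _ (fun i _ => hiR i)]
  have e1 : ∀ i : Fin n, ∫ ω, IL x (ω i) ∂(seqLaw n) = 2 * x - x ^ 2 := by
    intro i
    rw [seqLaw_eq, integral_comp_eval (μ := fun _ : Fin n => pairLaw) (i := i)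
      (f := IL x) (measurable_IL x).aestronglyMeasurable]
    exact int_IL hx0 hx1
  have e2 : ∀ i : Fin n, ∫ ω, IR x (ω i) ∂(seqLaw n) = x ^ 2 := by
    intro i
    rw [seqLaw_eq, integral_comp_eval (μ := fun _ : Fin n => pairLaw) (i := i)
      (f := IR x) (measurable_IR x).aestronglyMeasurable]
    exact int_IR hx0 hx1
  simp only [e1, e2, Finset.sum_const, Finset.card_univ, Fintype.card_fin, nsmul_eq_mul]
  rw [hx]
  field_simp
  ring

/-- Upper bound for fixed block length `m` and grid size `M`. -/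
lemma upper (n k m M : ℕ) (hm : 0 < m) (hM : 0 < M) :
    ∫ ω, (kWidth (prec ω) k : ℝ) ∂(seqLaw n)
      ≤ m + n * (1 / (k + 1) + 2 * k / M) + n * (M * (1 + (k : ℝ) ^ 2)) / Real.sqrt m := by
  classical
  have hMr : (0 : ℝ) < M := by exact_mod_cast hM
  have hmr : (0 : ℝ) < m := by exact_mod_cast hm
  have hk : (0 : ℝ) < k + 1 := by positivity
  set β : ℝ := 1 / (k + 1) + 2 * k / M with hβ
  have hβ0 : 0 ≤ β := by positivity
  -- pointwise bound
  let X : (Fin n → ℝ × ℝ) → ℕ → ℝ := fun ω s => m * β +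
    ∑ l ∈ Finset.range M, |Z n m s k ((l + 1 : ℝ) / M) ((l : ℝ) / M) ω|
  have hgrid : ∀ l < M, (0 : ℝ) ≤ (l : ℝ) / M ∧ (l : ℝ) / M ≤ 1 ∧ (0 : ℝ) ≤ (l + 1 : ℝ) / M ∧
      (l + 1 : ℝ) / M ≤ 1 := by
    intro l hl
    have h1 : (l : ℝ) + 1 ≤ M := by exact_mod_cast hl
    refine ⟨by positivity, ?_, by positivity, ?_⟩
    · rw [div_le_one hMr]; linarith
    · rw [div_le_one hMr]; linarith
  have hpt : ∀ᵐ ω ∂(seqLaw n), (kWidth (prec ω) k : ℝ) ≤ m + ∑ s ∈ Finset.range (n / m), X ω s := by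
    filter_upwards [ae_mem n] with ω hω
    refine kWidth_le_grid ω (fun i => min_le_max) (fun i => (hω i).1) (fun i => (hω i).2) k m M hm hM
      (X ω) (fun s => add_nonneg (by positivity) (Finset.sum_nonneg fun _ _ => abs_nonneg _)) ?_
    intro s hs l hl
    obtain ⟨hv0, hv1, hu0, hu1⟩ := hgrid l hl
    rw [cnt_eq]
    have hcs : ((block n m s).card : ℝ) = m := by
      have : (s + 1) * m ≤ n := by
        have h1 : s + 1 ≤ n / m := hs
        calc (s + 1) * m ≤ (n / m) * m := Nat.mul_le_mul_right m h1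
          _ ≤ n := Nat.div_mul_le_self n m
      exact_mod_cast card_block_eq n m s hm this
    have hcc : ((block n m (s + 1)).card : ℝ) ≤ m := by exact_mod_cast card_block_le n m (s + 1) hm
    rw [hcs]
    have hZ : Z n m s k ((l + 1 : ℝ) / M) ((l : ℝ) / M) ω
        ≤ ∑ l ∈ Finset.range M, |Z n m s k ((l + 1 : ℝ) / M) ((l : ℝ) / M) ω| := by
      refine (le_abs_self _).trans ?_
      exact Finset.single_le_sum (f := fun l : ℕ => |Z n m s k ((l + 1 : ℝ) / M) ((l : ℝ) / M) ω|)
        (fun _ _ => abs_nonneg _) (Finset.mem_range.mpr hl)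
    have hmean : ((block n m (s + 1)).card : ℝ) * (2 * ((l + 1 : ℝ) / M) - ((l + 1 : ℝ) / M) ^ 2)
        - k * (m * ((l : ℝ) / M) ^ 2) ≤ m * β := by
      set u := (l + 1 : ℝ) / M with hu
      set v := (l : ℝ) / M with hv
      have huv : v = u - 1 / M := by rw [hu, hv]; field_simp; ring
      have h1 : 0 ≤ 2 * u - u ^ 2 := by nlinarith
      have h2 : ((block n m (s + 1)).card : ℝ) * (2 * u - u ^ 2) ≤ m * (2 * u - u ^ 2) :=
        mul_le_mul_of_nonneg_right hcc h1
      have h3 : 2 * u - u ^ 2 - k * v ^ 2 ≤ β := by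
        have h4 : u ^ 2 - 2 / M ≤ v ^ 2 := by
          rw [huv]
          have : 0 < 1 / (M : ℝ) := by positivity
          have h5 : (2 : ℝ) / M = 2 * (1 / M) := by ring
          rw [h5]
          nlinarith [sq_nonneg (1 / (M : ℝ))]
        have h6 : 2 * u - (k + 1) * u ^ 2 ≤ 1 / (k + 1) := by
          rw [le_div_iff₀ hk]
          nlinarith [sq_nonneg ((k + 1) * u - 1)]
        have h7 : (k : ℝ) * (u ^ 2 - 2 / M) ≤ k * v ^ 2 :=
          mul_le_mul_of_nonneg_left h4 (Nat.cast_nonneg _)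
        rw [hβ]
        have h8 : (k : ℝ) * (2 / M) = 2 * k / M := by ring
        linarith
      have h4 := mul_le_mul_of_nonneg_left h3 hmr.le
      linarith
    change _ ≤ m * β + ∑ l ∈ Finset.range M, |Z n m s k ((l + 1 : ℝ) / M) ((l : ℝ) / M) ω|
    linarith
  have hXint : ∀ s, Integrable (fun ω => X ω s) (seqLaw n) ∧
      ∫ ω, X ω s ∂(seqLaw n) ≤ m * β + M * ((1 + (k : ℝ) ^ 2) * Real.sqrt m) := by
    intro s
    have h1 : ∀ l ∈ Finset.range M,
        Integrable (fun ω => |Z n m s k ((l + 1 : ℝ) / M) ((l : ℝ) / M) ω|) (seqLaw n) := by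
      intro l hl
      obtain ⟨hv0, hv1, hu0, hu1⟩ := hgrid l (Finset.mem_range.mp hl)
      exact (integral_abs_Z_le n m s k hm hu0 hu1 hv0 hv1).1
    refine ⟨(integrable_const _).add (integrable_finsetSum _ h1), ?_⟩
    change ∫ ω, (m * β + ∑ l ∈ Finset.range M,
      |Z n m s k ((l + 1 : ℝ) / M) ((l : ℝ) / M) ω|) ∂(seqLaw n) ≤ _
    rw [integral_add (integrable_const _) (integrable_finsetSum _ h1), integral_finsetSum _ h1]
    simp only [integral_const, probReal_univ, smul_eq_mul, one_mul]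
    gcongr
    refine (Finset.sum_le_card_nsmul _ _ ((1 + (k : ℝ) ^ 2) * Real.sqrt m) ?_).trans ?_
    · intro l hl
      obtain ⟨hv0, hv1, hu0, hu1⟩ := hgrid l (Finset.mem_range.mp hl)
      exact (integral_abs_Z_le n m s k hm hu0 hu1 hv0 hv1).2
    · rw [Finset.card_range, nsmul_eq_mul]
  have h1 := integral_mono_ae (integrable_kWidth n k)
    ((integrable_const (m : ℝ)).add (integrable_finsetSum (Finset.range (n / m))
      fun s _ => (hXint s).1)) hpt
  refine h1.trans ?_
  simp only [Pi.add_apply]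
  rw [integral_add (integrable_const _) (integrable_finsetSum _ fun s _ => (hXint s).1),
    integral_finsetSum _ fun s _ => (hXint s).1]
  simp only [integral_const, probReal_univ, smul_eq_mul, one_mul]
  have h2 : ∑ s ∈ Finset.range (n / m), ∫ ω, X ω s ∂(seqLaw n)
      ≤ ((n / m : ℕ) : ℝ) * (m * β + M * ((1 + (k : ℝ) ^ 2) * Real.sqrt m)) := by
    refine (Finset.sum_le_card_nsmul _ _ _ (fun s _ => (hXint s).2)).trans ?_
    rw [Finset.card_range, nsmul_eq_mul]
  have h3 : ((n / m : ℕ) : ℝ) ≤ (n : ℝ) / m := Nat.cast_div_le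
  have h4 : 0 ≤ m * β + M * ((1 + (k : ℝ) ^ 2) * Real.sqrt m) := by positivity
  have h5 : ((n / m : ℕ) : ℝ) * (m * β + M * ((1 + (k : ℝ) ^ 2) * Real.sqrt m))
      ≤ (n : ℝ) / m * (m * β + M * ((1 + (k : ℝ) ^ 2) * Real.sqrt m)) :=
    mul_le_mul_of_nonneg_right h3 h4
  have h6 : (n : ℝ) / m * (m * β + M * ((1 + (k : ℝ) ^ 2) * Real.sqrt m))
      = n * β + n * (M * (1 + (k : ℝ) ^ 2)) / Real.sqrt m := by
    have h7 : (m : ℝ) = Real.sqrt m * Real.sqrt m := (Real.mul_self_sqrt hmr.le).symm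
    have h8 : 0 < Real.sqrt m := Real.sqrt_pos.mpr hmr
    clear_value β
    generalize Real.sqrt m = r at h7 h8 ⊢
    rw [h7]
    field_simp
  rw [h6] at h5
  linarith

/-- For every `k ≥ 1` the expected `k`-width of a sequence of `n` random intervals, divided by `n`,
converges to `1/(k+1)`. -/
theorem result (k : ℕ) (_hk : 1 ≤ k) :
    Tendsto (fun n : ℕ => (∫ ω, (kWidth (prec ω) k : ℝ) ∂(seqLaw n)) / n) atTop
      (𝓝 (1 / ((k : ℝ) + 1))) := by
  rw [Metric.tendsto_atTop]
  intro ε hε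
  -- choose the grid size
  obtain ⟨M, hM⟩ := exists_nat_gt (2 * (k : ℝ) / (ε / 4))
  have hε4 : 0 < ε / 4 := by positivity
  have hM0 : (0 : ℝ) < M := lt_of_le_of_lt (by positivity) hM
  have hM0' : 0 < M := by exact_mod_cast hM0
  have hM1 : 2 * (k : ℝ) / M < ε / 4 := by
    rw [div_lt_iff₀ hM0]
    rw [div_lt_iff₀ hε4] at hM
    linarith
  -- choose the block length
  obtain ⟨m, hm⟩ := exists_nat_gt ((M * (1 + (k : ℝ) ^ 2) / (ε / 4)) ^ 2)
  have hm0 : (0 : ℝ) < m := lt_of_le_of_lt (sq_nonneg _) hm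
  have hm0' : 0 < m := by exact_mod_cast hm0
  have hsm : 0 < Real.sqrt m := Real.sqrt_pos.mpr hm0
  have hm1 : M * (1 + (k : ℝ) ^ 2) / Real.sqrt m < ε / 4 := by
    have h1 : M * (1 + (k : ℝ) ^ 2) / (ε / 4) < Real.sqrt m := Real.lt_sqrt_of_sq_lt hm
    rw [div_lt_iff₀ hsm]
    rw [div_lt_iff₀ hε4] at h1
    linarith
  obtain ⟨N, hN⟩ := exists_nat_gt ((m : ℝ) / (ε / 4))
  have hN0 : (0 : ℝ) < N := lt_of_le_of_lt (by positivity) hN
  refine ⟨N, fun n hn => ?_⟩
  have hnN : (N : ℝ) ≤ n := by exact_mod_cast hn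
  have hn0 : (0 : ℝ) < n := lt_of_lt_of_le hN0 hnN
  have hm2 : (m : ℝ) / n < ε / 4 := by
    rw [div_lt_iff₀ hn0]
    rw [div_lt_iff₀ hε4] at hN
    nlinarith
  have hlow := lower n k
  have hup := upper n k m M hm0' hM0'
  set E := ∫ ω, (kWidth (prec ω) k : ℝ) ∂(seqLaw n) with hE
  rw [Real.dist_eq, abs_lt]
  constructor
  · have : 1 / ((k : ℝ) + 1) ≤ E / n := by
      rw [le_div_iff₀ hn0]
      refine le_trans (le_of_eq ?_) hlow
      ring
    linarith
  · have h1 : E / n ≤ m / n + (1 / (k + 1) + 2 * k / M) + M * (1 + (k : ℝ) ^ 2) / Real.sqrt m := by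
      rw [div_le_iff₀ hn0]
      refine hup.trans (le_of_eq ?_)
      field_simp
    linarith

end Pool.Agent.Results.MP_46e774_pr.KWidthLimit
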